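import Pool.Agent.R923.RC.Exa2
import Pool.Agent.R923.RC.Meas
import Pool.Agent.R923.RC.Uniq
import Pool.Agent.R923.RC.Nec
import Pool.Agent.R923.RC.Fin
import Pool.Agent.R923.RC.Comp
import Pool.Agent.R923.RC.Inv
import Pool.Agent.R923.RC.Clos
import Pool.Agent.R923.RC.Stat
import Pool.Agent.R923.RC.Cont1
import Pool.Agent.R923.RC.Cont2
import Pool.Agent.R923.RC.Str
import Pool.Agent.R923.RC.Ess
import Pool.Agent.R923.RC.Mod
import Pool.Agent.R923.RC.Ae
import Pool.Agent.R923.RC.Ex
import Pool.Agent.R923.RC.Ctr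
import Pool.Agent.R923.RC.Joint
import Pool.Agent.R923.RC.VV
import Pool.Agent.R923.RC.Per
import Pool.Agent.R923.RC.Apx

/-!
# MP_81397d_pr: the covariances of stationary random closed sets

The definitions (`ClosedSet`, Fell topology, `Stationary`, `IsCovariance`, `Cond`, ...) are in
`Pool/Agent/R923/RC/Defs.lean`; `CornerPositive` is in `Pool/Agent/R923/RC/Exa.lean`.

Pieces formalised by helper33 (Meas), helper656 (Uniq), helper999 (Nec), helper37 (Alt, Fin),
helper780 (Comp), helper610 (Inv), helper724 (Clos, Stat), helper806 (Cont1, Cont2, Ess),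
helper515 (Str), helper564 (Mod), helper973 (Ae), helper391 (Ex), helper746 (Ctr, Joint, VV),
helper39 (Open), helper193 (Apx); idea, Per and assembly: helper923.
-/

open MeasureTheory Set Filter

namespace Pool.Agent.Results.MP_81397d_pr.UniformCornerPositivity

open Pool.Agent.R923.RC

/-- (1) A function on `ℝ^d` is the covariance of a stationary random closed set if and only if it
is uniformly corner positive (`Cond`). (2) The same for variograms. (3) In every dimension there
is the covariance `S` of a stationary random open set (continuous, corner positive) which is a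
uniform limit of covariances of stationary random closed sets but is not itself the covariance
of any stationary random closed set. -/
theorem result :
    (∀ (d : ℕ) (S : E d → ℝ), IsCovariance S ↔ Cond S) ∧
    (∀ (d : ℕ) (γ : E d → ℝ), IsVariogram γ ↔ γ 0 = 0 ∧ ∃ q : ℝ, Cond (fun h => q - γ h)) ∧
    (∀ d : ℕ, 1 ≤ d → ∃ S : E d → ℝ, IsOpenCovariance S ∧ Continuous S ∧ CornerPositive S ∧
      ¬ IsCovariance S ∧
      ∃ Sn : ℕ → E d → ℝ, (∀ n, IsCovariance (Sn n)) ∧ TendstoUniformly Sn S atTop) := by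
  have hS : ∀ (d : ℕ) (S : E d → ℝ), IsCovariance S ↔ Cond S := fun d S =>
    ⟨s_NEC d S, suf s_FIN s_COMP s_INV (s_CLOS s_MEAS) (s_STAT s_MEAS (s_UNIQ s_MEAS)) s_CONT1
      s_CONT2 S⟩
  refine ⟨hS, fun d γ => ⟨?_, ?_⟩, fun d hd => ?_⟩
  · rintro ⟨S, hS1, hS2⟩
    refine ⟨by rw [hS2]; ring, S 0, ?_⟩
    have : (fun h => S 0 - γ h) = S := by
      funext h; rw [hS2]; ring
    rw [this]
    exact (hS d S).1 hS1
  · rintro ⟨h0, q, hq⟩
    exact ⟨_, (hS d _).2 hq, fun h => by simp [h0]⟩
  · exact exa2 (s_CTR s_STR s_ESS s_MOD (s_AE s_MOD) s_EX) s_JOINT (s_PER s_MEAS) s_V s_CONT2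
      s_APX d hd

end Pool.Agent.Results.MP_81397d_pr.UniformCornerPositivity
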